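import Mathlib

namespace Pool.Agent.H.MP_0fb7ac_an

open MeasureTheory Set

noncomputable def lap (u : ℝ × ℝ → ℝ) (p : ℝ × ℝ) : ℝ :=
  deriv (fun s => deriv (fun t => u (t, p.2)) s) p.1
    + deriv (fun s => deriv (fun t => u (p.1, t)) s) p.2

noncomputable def speed (u : ℝ × ℝ → ℝ) (γ : ℝ → ℝ × ℝ) (t : ℝ) : ℝ :=
  Real.exp (u (γ t)) * √((deriv γ t).1 ^ 2 + (deriv γ t).2 ^ 2)

def D (e x y : ℝ) : ℝ := (x ^ 2 - y ^ 2 - 1) ^ 2 + 4 * x ^ 2 * y ^ 2 + e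

noncomputable def sg (e x y : ℝ) : ℝ := √(D e x y)

noncomputable def uu (a e : ℝ) (p : ℝ × ℝ) : ℝ :=
  Real.log (2 * a) - 1 / 2 * Real.log (sg e p.1 p.2)
    - Real.log (a ^ 2 * (p.1 ^ 2 + p.2 ^ 2) + sg e p.1 p.2)

variable {a e : ℝ}

lemma D_pos (he : 0 < e) (x y : ℝ) : 0 < D e x y := by unfold D; positivity
lemma sg_pos (he : 0 < e) (x y : ℝ) : 0 < sg e x y := Real.sqrt_pos.2 (D_pos he x y)
lemma sg_sq (he : 0 < e) (x y : ℝ) : sg e x y ^ 2 = D e x y := Real.sq_sqrt (D_pos he x y).le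

lemma hd_sg (he : 0 < e) {x y : ℝ → ℝ} {x' y' t : ℝ} (hx : HasDerivAt x x' t)
    (hy : HasDerivAt y y' t) : HasDerivAt (fun s => sg e (x s) (y s))
      (2 * (x t * (x t ^ 2 + y t ^ 2 - 1) * x' + y t * (x t ^ 2 + y t ^ 2 + 1) * y')
        / sg e (x t) (y t)) t := by
  have h1 : HasDerivAt (fun s => D e (x s) (y s))
      (4 * (x t * (x t ^ 2 + y t ^ 2 - 1) * x' + y t * (x t ^ 2 + y t ^ 2 + 1) * y')) t := by
    refine HasDerivAt.congr_deriv ((((((hx.pow 2).sub (hy.pow 2)).sub_const 1).pow 2).add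
      (((hx.pow 2).const_mul 4).mul (hy.pow 2))).add_const e) ?_
    simp; ring
  refine HasDerivAt.congr_deriv (h1.sqrt (D_pos he _ _).ne') ?_
  have := sg_pos he (x t) (y t)
  unfold sg at *
  field_simp; ring

lemma hd_u (he : 0 < e) {x y : ℝ → ℝ} {x' y' t : ℝ} (hx : HasDerivAt x x' t)
    (hy : HasDerivAt y y' t) : HasDerivAt (fun s => uu a e (x s, y s))
      (-(x t * (x t ^ 2 + y t ^ 2 - 1) * x' + y t * (x t ^ 2 + y t ^ 2 + 1) * y')
          / sg e (x t) (y t) ^ 2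
        - (2 * a ^ 2 * (x t * x' + y t * y')
          + 2 * (x t * (x t ^ 2 + y t ^ 2 - 1) * x' + y t * (x t ^ 2 + y t ^ 2 + 1) * y')
            / sg e (x t) (y t)) / (a ^ 2 * (x t ^ 2 + y t ^ 2) + sg e (x t) (y t))) t := by
  have h0 := sg_pos he (x t) (y t)
  have h1 := hd_sg he hx hy
  refine HasDerivAt.congr_deriv ((((h1.log h0.ne').const_mul (1 / 2)).const_sub _).sub
    (((((hx.pow 2).add (hy.pow 2)).const_mul (a ^ 2)).add h1).log (by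
      simp only [Pi.add_apply, Pi.pow_apply]; positivity))) ?_
  simp only [Pi.add_apply, Pi.pow_apply]
  field_simp; ring

lemma lap_eq (he : 0 < e) (x y : ℝ) : lap (uu a e) (x, y) =
    -(4 * e * (x ^ 2 + y ^ 2) / sg e x y ^ 4
      + 8 * e * (x ^ 2 + y ^ 2) / (sg e x y ^ 3 * (a ^ 2 * (x ^ 2 + y ^ 2) + sg e x y))
      + 4 * a ^ 2 * (sg e x y ^ 2 + e * (e + 1 - 2 * (x ^ 2 - y ^ 2)))
        / (sg e x y ^ 3 * (a ^ 2 * (x ^ 2 + y ^ 2) + sg e x y) ^ 2)) := by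
  have h0 := sg_pos he x y
  have hN : 0 < a ^ 2 * (x ^ 2 + y ^ 2) + sg e x y := by positivity
  have e1 : (fun s => deriv (fun t => uu a e (t, y)) s) = _ :=
    funext fun s => (hd_u (a := a) he (hasDerivAt_id s) (hasDerivAt_const s y)).deriv
  have e2 : (fun s => deriv (fun t => uu a e (x, t)) s) = _ :=
    funext fun s => (hd_u (a := a) he (hasDerivAt_const s x) (hasDerivAt_id s)).deriv
  simp only [lap, e1, e2, id, mul_one, mul_zero, add_zero, zero_add]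
  have hx := hasDerivAt_id' x
  have hy := hasDerivAt_id' y
  have s1 := hd_sg he hx (hasDerivAt_const x y)
  have s2 := hd_sg he (hasDerivAt_const y x) hy
  have p1 := hx.mul (((hx.pow 2).add_const (y ^ 2)).sub_const 1)
  have p2 := hy.mul (((hy.pow 2).const_add (x ^ 2)).add_const 1)
  have d1 := ((p1.neg.div (s1.pow 2) (pow_pos h0 2).ne').sub (((hx.const_mul (2 * a ^ 2)).add
    ((p1.const_mul 2).div s1 h0.ne')).div
    ((((hx.pow 2).add_const (y ^ 2)).const_mul (a ^ 2)).add s1) hN.ne')).deriv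
  have d2 := ((p2.neg.div (s2.pow 2) (pow_pos h0 2).ne').sub (((hy.const_mul (2 * a ^ 2)).add
    ((p2.const_mul 2).div s2 h0.ne')).div
    ((((hy.pow 2).const_add (x ^ 2)).const_mul (a ^ 2)).add s2) hN.ne')).deriv
  refine (congrArg₂ (· + ·) d1 d2).trans ?_
  simp only [Pi.add_apply, Pi.pow_apply, Pi.mul_apply, Pi.neg_apply, Pi.div_apply]
  have hs := sg_sq he x y
  generalize sg e x y = s at *
  have : e = s ^ 2 - ((x ^ 2 - y ^ 2 - 1) ^ 2 + 4 * x ^ 2 * y ^ 2) := by rw [hs, D]; ring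
  rw [this]
  norm_num
  field_simp
  ring

lemma exp_u (ha : 0 < a) (he : 0 < e) (x y : ℝ) : Real.exp (2 * uu a e (x, y)) =
    4 * a ^ 2 / (sg e x y * (a ^ 2 * (x ^ 2 + y ^ 2) + sg e x y) ^ 2) := by
  have h0 := sg_pos he x y
  have hN : 0 < a ^ 2 * (x ^ 2 + y ^ 2) + sg e x y := by positivity
  have : 2 * uu a e (x, y) = Real.log (4 * a ^ 2 /
      (sg e x y * (a ^ 2 * (x ^ 2 + y ^ 2) + sg e x y) ^ 2)) := by
    rw [Real.log_div (by positivity) (by positivity), Real.log_mul h0.ne' (by positivity),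
      Real.log_pow, show 4 * a ^ 2 = (2 * a) ^ 2 by ring, Real.log_pow, uu]
    push_cast; ring
  rw [this, Real.exp_log (by positivity)]

lemma super (ha : 0 < a) (he : 0 < e) (p : ℝ × ℝ) :
    lap (uu a e) p + Real.exp (2 * uu a e p) ≤ 0 := by
  obtain ⟨x, y⟩ := p
  rw [lap_eq he, exp_u ha he]
  have h0 := sg_pos he x y
  generalize sg e x y = s at *
  have hN : 0 < a ^ 2 * (x ^ 2 + y ^ 2) + s := by positivity
  have : -(4 * e * (x ^ 2 + y ^ 2) / s ^ 4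
      + 8 * e * (x ^ 2 + y ^ 2) / (s ^ 3 * (a ^ 2 * (x ^ 2 + y ^ 2) + s))
      + 4 * a ^ 2 * (s ^ 2 + e * (e + 1 - 2 * (x ^ 2 - y ^ 2)))
        / (s ^ 3 * (a ^ 2 * (x ^ 2 + y ^ 2) + s) ^ 2))
      + 4 * a ^ 2 / (s * (a ^ 2 * (x ^ 2 + y ^ 2) + s) ^ 2) =
      -(4 * e * ((x ^ 2 + y ^ 2) * (a ^ 4 * (x ^ 2 + y ^ 2) ^ 2 + 3 * s ^ 2)
        + a ^ 2 * s * (e + 4 * y ^ 2 + 3 * (x ^ 2 + y ^ 2) ^ 2 + (x ^ 2 + y ^ 2 - 1) ^ 2))
        / (s ^ 4 * (a ^ 2 * (x ^ 2 + y ^ 2) + s) ^ 2)) := by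
    field_simp; ring
  rw [this, neg_nonpos]
  positivity

lemma smooth (he : 0 < e) : ContDiff ℝ 2 (uu a e) := by
  have h1 : ContDiff ℝ 2 fun p : ℝ × ℝ => sg e p.1 p.2 :=
    ContDiff.sqrt (by unfold D; fun_prop) fun p => (D_pos he _ _).ne'
  refine (contDiff_const.sub (contDiff_const.mul (h1.log fun p => (sg_pos he _ _).ne'))).sub
    (ContDiff.log (ContDiff.add (by fun_prop) h1) fun p => ?_)
  have := sg_pos he p.1 p.2
  positivity

lemma integ (ha : 0 < a) (he : 0 < e) : Integrable fun p => Real.exp (2 * uu a e p) := by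
  have h := integrable_rpow_neg_one_add_norm_sq (E := ℝ × ℝ) (μ := volume) (r := 6)
    (by simp; norm_num)
  refine (h.const_mul (4 * a ^ 2 * (1 + 4 / e) ^ 3)).mono'
    (Real.continuous_exp.comp (continuous_const.mul (smooth he).continuous)).aestronglyMeasurable
    (Filter.Eventually.of_forall fun p => ?_)
  obtain ⟨x, y⟩ := p
  rw [Real.norm_of_nonneg (Real.exp_pos _).le, exp_u ha he]
  have h0 := sg_pos he x y
  have hs := sg_sq he x y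
  have hn : ‖(x, y)‖ ^ 2 ≤ x ^ 2 + y ^ 2 := by
    rw [Prod.norm_mk, Real.norm_eq_abs, Real.norm_eq_abs]
    rcases max_choice |x| |y| with h | h <;> rw [h, sq_abs] <;> nlinarith
  rw [show (-6 / 2 : ℝ) = -((3 : ℕ) : ℝ) by norm_num, Real.rpow_neg (by positivity),
    Real.rpow_natCast]
  have hn0 : 0 ≤ ‖(x, y)‖ ^ 2 := sq_nonneg _
  generalize sg e x y = s at *
  generalize ‖(x, y)‖ ^ 2 = n at *
  obtain ⟨k, hk⟩ : ∃ k, k = 1 + 4 / e := ⟨_, rfl⟩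
  have hk1 : 1 ≤ k := by rw [hk]; exact le_add_of_nonneg_right (by positivity)
  have h1 : (1 + (x ^ 2 + y ^ 2)) ^ 2 ≤ k * s ^ 2 := by
    have h2 : (x ^ 2 + y ^ 2 - 1) ^ 2 + e ≤ s ^ 2 := by rw [hs, D]; nlinarith [sq_nonneg y]
    refine le_trans ?_ (mul_le_mul_of_nonneg_left h2 (by linarith))
    generalize x ^ 2 + y ^ 2 = t
    have : k * ((t - 1) ^ 2 + e) - (1 + t) ^ 2 = (2 * (t - 1) - e) ^ 2 / e := by
      rw [hk]; field_simp; ring
    have h3 : 0 ≤ (2 * (t - 1) - e) ^ 2 / e := by positivity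
    linarith
  rw [← hk]
  have h4 : 1 + n ≤ k * s := by
    refine le_trans (by linarith : 1 + n ≤ 1 + (x ^ 2 + y ^ 2))
      (abs_le_of_sq_le_sq' (h1.trans ?_) (by positivity)).2
    rw [mul_pow]; gcongr; nlinarith
  rw [← div_eq_mul_inv, div_le_div_iff₀ (by positivity) (by positivity)]
  calc 4 * a ^ 2 * (1 + n) ^ 3 ≤ 4 * a ^ 2 * (k * s) ^ 3 := by gcongr
    _ = 4 * a ^ 2 * k ^ 3 * (s * s ^ 2) := by ring
    _ ≤ _ := by gcongr; exact le_add_of_nonneg_left (by positivity)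

noncomputable def hh (a e : ℝ) (p : ℝ × ℝ) : ℝ :=
  2 * Real.arctan √(a ^ 2 * (p.1 ^ 2 + p.2 ^ 2) / sg e p.1 p.2 + a ^ 2)

lemma hh_cont (he : 0 < e) : Continuous (hh a e) := by
  have h1 : Continuous fun p : ℝ × ℝ => sg e p.1 p.2 := by unfold sg D; fun_prop
  exact continuous_const.mul (Real.continuous_arctan.comp (Continuous.sqrt
    ((Continuous.div (by fun_prop) h1 fun p => (sg_pos he _ _).ne').add continuous_const)))

lemma hh_lip (ha : 0 < a) (he : 0 < e) {γ : ℝ → ℝ × ℝ} {t : ℝ} (hγ : DifferentiableAt ℝ γ t) :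
    DifferentiableAt ℝ (fun s => hh a e (γ s)) t ∧
      |deriv (fun s => hh a e (γ s)) t| ≤ √(1 + e) * speed (uu a e) γ t := by
  have hx : HasDerivAt (fun s => (γ s).1) (deriv γ t).1 t := hγ.hasDerivAt.fst
  have hy : HasDerivAt (fun s => (γ s).2) (deriv γ t).2 t := hγ.hasDerivAt.snd
  have h0 := sg_pos he (γ t).1 (γ t).2
  have h1 := ((((((hx.pow 2).add (hy.pow 2)).const_mul (a ^ 2)).div (hd_sg he hx hy)
    h0.ne').add_const (a ^ 2)).sqrt (by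
      simp only [Pi.add_apply, Pi.pow_apply, Pi.div_apply]; positivity)).arctan.const_mul 2
  refine ⟨h1.differentiableAt, ?_⟩
  have h2 : deriv (fun s => hh a e (γ s)) t = _ := h1.deriv
  have h3 := exp_u ha he (γ t).1 (γ t).2
  have hs := sg_sq he (γ t).1 (γ t).2
  rw [h2, speed]
  refine abs_le_of_sq_le_sq ?_ (by positivity)
  rw [mul_pow √_, mul_pow (Real.exp _), Real.sq_sqrt (x := 1 + e) (by positivity),
    Real.sq_sqrt (x := (deriv γ t).1 ^ 2 + (deriv γ t).2 ^ 2) (by positivity), ← Real.exp_nat_mul]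
  simp only [Pi.add_apply, Pi.pow_apply, Pi.div_apply, Nat.cast_ofNat, Prod.mk.eta] at h3 ⊢
  rw [h3]
  generalize (γ t).1 = x at *
  generalize (γ t).2 = y at *
  generalize (deriv γ t).1 = x' at *
  generalize (deriv γ t).2 = y' at *
  generalize sg e x y = s at *
  clear h1 h2 h3 hx hy
  obtain ⟨w, hw⟩ : ∃ w, w = a ^ 2 * (x ^ 2 + y ^ 2) / s := ⟨_, rfl⟩
  have hw0 : 0 ≤ w := by rw [hw]; positivity
  rw [← hw]
  obtain ⟨r, hr⟩ : ∃ r, r = √(w + a ^ 2) := ⟨_, rfl⟩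
  have hr2 : r ^ 2 = w + a ^ 2 := by rw [hr, Real.sq_sqrt (by positivity)]
  have hr0 : 0 < r := by rw [hr]; positivity
  rw [← hr]
  obtain ⟨A, hA⟩ : ∃ A, A = x * s ^ 2 - (x ^ 2 + y ^ 2) * (x * (x ^ 2 + y ^ 2 - 1)) := ⟨_, rfl⟩
  obtain ⟨B, hB⟩ : ∃ B, B = y * s ^ 2 - (x ^ 2 + y ^ 2) * (y * (x ^ 2 + y ^ 2 + 1)) := ⟨_, rfl⟩
  have k1 : A ^ 2 + B ^ 2 ≤ (x ^ 2 + y ^ 2) * ((1 + e) * s ^ 2) := by
    have : (x ^ 2 + y ^ 2) * ((1 + e) * s ^ 2) - (A ^ 2 + B ^ 2) =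
        (x ^ 2 + y ^ 2) * (e * ((x ^ 2 - y ^ 2) ^ 2 + 4 * x ^ 2 * y ^ 2)) := by
      rw [hA, hB, hs, D]; ring
    have h4 : 0 ≤ (x ^ 2 + y ^ 2) * (e * ((x ^ 2 - y ^ 2) ^ 2 + 4 * x ^ 2 * y ^ 2)) := by positivity
    linarith
  have k2 : (A * x' + B * y') ^ 2 ≤ (x ^ 2 + y ^ 2) * ((1 + e) * s ^ 2) * (x' ^ 2 + y' ^ 2) := by
    refine le_trans ?_ (mul_le_mul_of_nonneg_right k1 (by positivity))
    nlinarith [sq_nonneg (A * y' - B * x')]
  have hN : a ^ 2 * (x ^ 2 + y ^ 2) + s = s * (1 + w) := by rw [hw]; field_simp; ring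
  calc _ = 4 * a ^ 4 * (A * x' + B * y') ^ 2 / (s ^ 6 * (1 + r ^ 2) ^ 2 * r ^ 2) := by
        rw [hA, hB]; simp only [Nat.add_one_sub_one, pow_one]; field_simp; ring
    _ ≤ 4 * a ^ 4 * ((x ^ 2 + y ^ 2) * ((1 + e) * s ^ 2) * (x' ^ 2 + y' ^ 2))
          / (s ^ 6 * (1 + w) ^ 2 * r ^ 2) := by
        gcongr; nlinarith
    _ = (1 + e) * (4 * a ^ 2 / (s * (s * (1 + w)) ^ 2) * (x' ^ 2 + y' ^ 2)) * (w / r ^ 2) := by
        rw [hw]; field_simp
    _ ≤ (1 + e) * (4 * a ^ 2 / (s * (s * (1 + w)) ^ 2) * (x' ^ 2 + y' ^ 2)) * 1 := by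
        gcongr; exact div_le_one_of_le₀ (by nlinarith) (by positivity)
    _ = _ := by rw [hN, mul_one]

lemma len_ge (ha : 0 < a) (γ : ℝ → ℝ × ℝ) (S : Set ℝ) (hS : S.Countable)
    (hc : ContinuousOn γ (Icc 0 1)) (h0 : γ 0 = (1, 0)) (h1 : γ 1 = (-1, 0))
    (hd : ∀ t ∈ Ioo (0 : ℝ) 1 \ S, DifferentiableAt ℝ γ t)
    (hi : IntervalIntegrable (speed (uu a (a ^ 8)) γ) volume 0 1) :
    2 * (Real.pi - 2 * Real.arctan a - 2 * Real.arctan √(2 * a ^ 2)) ≤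
      √(1 + a ^ 8) * ∫ t in (0 : ℝ)..1, speed (uu a (a ^ 8)) γ t := by
  have he : 0 < a ^ 8 := by positivity
  obtain ⟨f, hf⟩ : ∃ f, f = fun s => hh a (a ^ 8) (γ s) := ⟨_, rfl⟩
  have key : ∀ b c : ℝ, 0 ≤ b → b ≤ c → c ≤ 1 →
      |f c - f b| ≤ ∫ t in b..c, √(1 + a ^ 8) * speed (uu a (a ^ 8)) γ t := by
    intro b c hb hbc hc1
    have hsub : Ioo b c \ S ⊆ Ioo 0 1 \ S := sdiff_subset_sdiff_left (Ioo_subset_Ioo hb hc1)
    have hae : ∀ᵐ t ∂(volume.restrict (Ioc b c)),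
        ‖deriv f t‖ ≤ √(1 + a ^ 8) * speed (uu a (a ^ 8)) γ t := by
      rw [← Measure.restrict_congr_set Ioo_ae_eq_Ioc]
      filter_upwards [ae_restrict_mem measurableSet_Ioo,
        ae_restrict_of_ae (hS.ae_notMem volume)] with t ht hts
      rw [hf]; exact (hh_lip ha he (hd t (hsub ⟨ht, hts⟩))).2
    have hi' : IntervalIntegrable (fun t => √(1 + a ^ 8) * speed (uu a (a ^ 8)) γ t) volume b c :=
      (hi.mono_set (by rw [uIcc_of_le hbc, uIcc_of_le zero_le_one]; exact Icc_subset_Icc hb hc1)).const_mul _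
    have hfi : IntervalIntegrable (deriv f) volume b c :=
      hi'.mono_fun' (measurable_deriv f).aestronglyMeasurable (by rwa [uIoc_of_le hbc])
    have hfc : ContinuousOn f (Icc b c) := by
      rw [hf]; exact (hh_cont he).comp_continuousOn (hc.mono (Icc_subset_Icc hb hc1))
    rw [← integral_eq_of_hasDerivAt_off_countable_of_le f (deriv f) hbc hS hfc
      (fun t ht => by rw [hf]; exact (hh_lip ha he (hd t (hsub ht))).1.hasDerivAt) hfi,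
      ← Real.norm_eq_abs]
    refine intervalIntegral.norm_integral_le_of_norm_le hbc ?_ hi'
    exact (ae_restrict_iff' measurableSet_Ioc).1 hae
  obtain ⟨τ, hτ, hτ0⟩ : (0 : ℝ) ∈ (fun t => (γ t).1) '' Icc 0 1 :=
    intermediate_value_Icc' zero_le_one (continuous_fst.comp_continuousOn hc)
      (by simp [h0, h1])
  have k1 := key 0 τ le_rfl hτ.1 hτ.2
  have k2 := key τ 1 hτ.1 hτ.2 le_rfl
  have hsub : ∀ b c : ℝ, 0 ≤ b → b ≤ c → c ≤ 1 →
      IntervalIntegrable (speed (uu a (a ^ 8)) γ) volume b c := fun b c hb hbc hc1 =>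
    hi.mono_set (by rw [uIcc_of_le hbc, uIcc_of_le zero_le_one]; exact Icc_subset_Icc hb hc1)
  rw [intervalIntegral.integral_const_mul] at k1 k2
  rw [← intervalIntegral.integral_add_adjacent_intervals (hsub 0 τ le_rfl hτ.1 hτ.2)
    (hsub τ 1 hτ.1 hτ.2 le_rfl), mul_add]
  have v1 : ∀ x : ℝ, x ^ 2 = 1 → Real.pi - 2 * Real.arctan a ≤ hh a (a ^ 8) (x, 0) := by
    intro x hx
    have : sg (a ^ 8) x 0 = a ^ 4 := by
      rw [sg, D, hx, show ((1 : ℝ) - 0 ^ 2 - 1) ^ 2 + 4 * 1 * 0 ^ 2 + a ^ 8 = (a ^ 4) ^ 2 by ring,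
        Real.sqrt_sq (by positivity)]
    have h2 : Real.arctan a⁻¹ ≤ Real.arctan √(a ^ 2 * (x ^ 2 + 0 ^ 2) / a ^ 4 + a ^ 2) := by
      refine Real.arctan_strictMono.monotone (Real.le_sqrt_of_sq_le ?_)
      have : a ^ 2 * (x ^ 2 + 0 ^ 2) / a ^ 4 = a⁻¹ ^ 2 := by rw [hx]; field_simp; ring
      rw [this]; nlinarith
    rw [Real.arctan_inv_of_pos ha] at h2
    simp only [hh, this]
    linarith
  have v2 : f τ ≤ 2 * Real.arctan √(2 * a ^ 2) := by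
    have hτ0' : (γ τ).1 = 0 := hτ0
    simp only [hf, hh, hτ0']
    refine mul_le_mul_of_nonneg_left (Real.arctan_strictMono.monotone (Real.sqrt_le_sqrt ?_))
      (by norm_num)
    have h3 := sg_pos he 0 (γ τ).2
    have h4 : 0 ^ 2 + (γ τ).2 ^ 2 ≤ sg (a ^ 8) 0 (γ τ).2 :=
      Real.le_sqrt_of_sq_le (by unfold D; nlinarith [sq_nonneg (γ τ).2])
    have : a ^ 2 * (0 ^ 2 + (γ τ).2 ^ 2) / sg (a ^ 8) 0 (γ τ).2 ≤ a ^ 2 := by
      rw [div_le_iff₀ h3]; gcongr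
    linarith
  have w0 : Real.pi - 2 * Real.arctan a ≤ f 0 := by rw [hf]; simp only [h0]; exact v1 1 (by norm_num)
  have w1 : Real.pi - 2 * Real.arctan a ≤ f 1 := by rw [hf]; simp only [h1]; exact v1 (-1) (by norm_num)
  linarith [(abs_le.1 k1).1, (abs_le.1 k2).2]

theorem main (L : ℝ) (hL : L < 2 * Real.pi) : ∃ u : ℝ × ℝ → ℝ, ContDiff ℝ 2 u ∧
    (∀ p, lap u p + Real.exp (2 * u p) ≤ 0) ∧ Integrable (fun p => Real.exp (2 * u p)) ∧
    ∃ p q : ℝ × ℝ, ∀ (γ : ℝ → ℝ × ℝ) (S : Set ℝ), S.Countable → ContinuousOn γ (Icc 0 1) →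
      γ 0 = p → γ 1 = q → (∀ t ∈ Ioo (0 : ℝ) 1 \ S, DifferentiableAt ℝ γ t) →
      IntervalIntegrable (speed u γ) volume 0 1 → L ≤ ∫ t in (0 : ℝ)..1, speed u γ t := by
  have hc : Continuous fun a : ℝ =>
      2 * (Real.pi - 2 * Real.arctan a - 2 * Real.arctan √(2 * a ^ 2)) - √(1 + a ^ 8) * L := by
    have := Real.continuous_arctan
    fun_prop
  have h1 : ∀ᶠ a in nhdsWithin (0 : ℝ) (Ioi 0), 0 <
      2 * (Real.pi - 2 * Real.arctan a - 2 * Real.arctan √(2 * a ^ 2)) - √(1 + a ^ 8) * L :=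
    nhdsWithin_le_nhds (hc.continuousAt.eventually (lt_mem_nhds (by simpa using hL)))
  obtain ⟨a, h2, ha⟩ := (h1.and self_mem_nhdsWithin).exists
  have ha : 0 < a := ha
  have he : 0 < a ^ 8 := by positivity
  refine ⟨uu a (a ^ 8), smooth he, super ha he, integ ha he, (1, 0), (-1, 0),
    fun γ S hS hγ h0 h1 hd hi => ?_⟩
  have := len_ge ha γ S hS hγ h0 h1 hd hi
  exact le_of_mul_le_mul_left (a := √(1 + a ^ 8)) (by linarith) (by positivity)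

end Pool.Agent.H.MP_0fb7ac_an
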